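import Pool.Agent.Run7.h23.Gd.Main
import Pool.Agent.Run7.h23.Gn.Zero
import Pool.Agent.Run7.h23.Gn.Idl

/-!
# Curves of every genus all of whose inert quadratic twists have exactly one rational point, over many fields

Let `F` be a number field (for example `F = ℚ`), `g ≥ 1`, `T` a finite set of primes of `F`, and `K₀` any
finite extension of `F`.

Theorem. There are a finite set `S` of primes of `F` (not over `2`, not in `T`, completely split in `K₀`) and
`c > 0` such that for all large `B` at least `c` times the number of ALL monic polynomials `f` of degree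
`2 g + 1` over `𝓞 F` without term of degree `2 g` and of height at most `B` are irreducible and minimal and
have the following property. Let `K / F` be ANY finite Galois extension of 2-power degree in which
* the primes over `2`, the primes in `S` and the real places of `F` split completely,
* every ramified prime `𝔭` is in `T` or `f` is irreducible modulo `𝔭`

(for example `K = F`), and let `D ≠ 0` be ANY element of `𝓞 F` with
* `D ≡ 1` modulo `4`, `D` is a square in the completions at the primes over `2` and positive in all real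
  embeddings (for `F = ℚ`: `D ≡ 1` modulo `8`, `D > 0`),
* every prime `𝔭` which divides `D` is in `T` or `f` is irreducible modulo `𝔭`.

Let `C_D : D y ^ 2 = f(x)` be the quadratic twist of the curve `C : y ^ 2 = f(x)` of genus `g`. Then

(1) `C_D(L) = {∞}` for ALL extensions `L / K` of odd degree `< 2 g` (in particular for `L = K`);
(2) for every field `E` over `K` with a solution of `D y ^ 2 = f(x)` (for example the function field of a
curve `X` over `K` with a nonconstant morphism to `C_D`, or of a variety of any dimension with a dominant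
rational map to `C_D`) all the `L`-rational places of `E`, `L` as in (1), have `x = ∞`;
(3) `K[x, y] / (y ^ 2 - D ^ (2 g + 1) f(x / D))` is a principal ideal ring, that is, `J_D(K) = 0` for the Jacobian
`J_D` of `C_D`.

There is no bound on the degree of `K`, its Galois group, the number of its ramified primes, or on `D` and the
number of its prime divisors, and both classes are infinite for every such `f` (Chebotarev: `f` is irreducible
modulo infinitely many primes).

Relation to the uniformity conjecture. For `F = K = L = ℚ`: for every genus `g ≥ 2` and a positive proportion of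
the curves `C` all the curves `C_D` have exactly one rational point, and by (2) the number of rational points of
ANY curve `X` over `ℚ` (of any genus `g'`) with a morphism of degree `d ≥ 1` to one of the curves `C_D` is at
most `d`, which is at most `(g' - 1) / (g - 1)` by the formula of Hurwitz: uniform boundedness with the bound
`g' - 1` in this class. The same is true over all the fields `K`, and with the `L` for which the points are
over `K` of odd degree less than `2 g`.

The proof. The 2-Selmer group of `J_D` over `K` is zero. As in `MP_a43263_nt.UniformOddHyperelliptic`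
(`Run7/h23/Gn`, based on the project PF of helper783 in the starting tree) a locally solvable class gives an
element `α` of `Ω = K[x] / (f)` with conditions; if it is not a square then there is such an element `α` in
`L = F[x] / (f)`, by induction along the 2-group, and such elements do not exist, for a set of `f` of
positive proportion. New here (`Run7/h23/Gd`) is the twist by `D`. The valuations of `α` at the primes over
the divisors of `D` are not even in general. We drop these conditions over `K` and get them back over `F`: the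
norm of `α` is a square and there is only one prime of `L` over such a prime of `F`, with an odd residue
degree. At the primes in `S` the twist by `D` changes nothing since the units of `F` are local squares there in the
field `L`, at the primes over `2` and at the real places since `D` is a local square. Then `J_D(K)` is uniquely
2-divisible, and it is zero by the local theorem of `MP_7ede32_ag.OneSetAllTwoExtensions` at the primes over
`2` (`Run7/h23/Lo`). A point of odd degree less than `2 g` would give a square root of the polynomial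
modulo a polynomial of degree at most `2 g`, hence a nonzero element of `J_D(K)`.
-/

set_option autoImplicit false
set_option linter.all false

namespace Pool.Agent.Results.MP_10e784_ag.AllTwistsManyFields

open Filter NumberField IsDedekindDomain Polynomial
open scoped Classical

section defs

variable (F : Type) [Field F] [NumberField F]

/-- All monic polynomials of degree `2 g + 1` with coefficients in the ring of integers of `F`, without term
of degree `2 g`, such that all conjugates of the coefficient of `x ^ j` have absolute value at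
most `B ^ (2 g + 1 - j)`. -/
def Polys (g B : ℕ) : Set ((𝓞 F)[X]) :=
  {f | f.Monic ∧ f.natDegree = 2 * g + 1 ∧ f.coeff (2 * g) = 0 ∧
    ∀ j ≤ 2 * g, ∀ σ : F →+* ℂ, ‖σ (f.coeff j : F)‖ ≤ (B : ℝ) ^ (2 * g + 1 - j)}

variable {F}

/-- The polynomial over the extension `K` of `F`. -/
noncomputable def overK (K : Type) [Field K] [Algebra F K] (f : (𝓞 F)[X]) : K[X] :=
  (f.map (algebraMap (𝓞 F) F)).map (algebraMap F K)

/-- The equation `y ^ 2 = f(x)` is minimal: there is no prime `𝔭` such that `𝔭 ^ (2 i)` divides the coefficient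
of `x ^ (2 g + 1 - i)` for all `i > 0`. -/
def IsMinimal (g : ℕ) (f : (𝓞 F)[X]) : Prop :=
  ∀ 𝔭 : Ideal (𝓞 F), 𝔭.IsPrime → 𝔭 ≠ ⊥ → ¬ ∀ j ≤ 2 * g, f.coeff j ∈ 𝔭 ^ (2 * (2 * g + 1 - j))

/-- `f` is irreducible modulo the prime `𝔭`. -/
def IrreducibleMod (𝔭 : HeightOneSpectrum (𝓞 F)) (f : (𝓞 F)[X]) : Prop :=
  Irreducible (f.map (Ideal.Quotient.mk 𝔭.asIdeal))

/-- The conditions on the twist. -/
structure AllowedTwist (T : Finset (HeightOneSpectrum (𝓞 F))) (f : (𝓞 F)[X]) (D : 𝓞 F) :
    Prop where
  ne_zero : D ≠ 0
  four : (4 : 𝓞 F) ∣ D - 1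
  two : ∀ 𝔭 : HeightOneSpectrum (𝓞 F), (2 : 𝓞 F) ∈ 𝔭.asIdeal →
    IsSquare (algebraMap F (𝔭.adicCompletion F) (D : F))
  real : ∀ ρ : F →+* ℝ, 0 < ρ (D : F)
  inert : ∀ 𝔭 : HeightOneSpectrum (𝓞 F), D ∈ 𝔭.asIdeal → 𝔭 ∈ T ∨ IrreducibleMod 𝔭 f

variable (K : Type) [Field K] [NumberField K] [Algebra F K]

/-- The prime `𝔭` of `F` splits completely in `K`: for every prime `𝔓` over `𝔭` the square of `𝔓` does not divide
`𝔭` and every integer of `K` is congruent to an integer of `F` modulo `𝔓`. -/
def SplitsCompletely (𝔭 : HeightOneSpectrum (𝓞 F)) : Prop :=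
  ∀ 𝔓 : HeightOneSpectrum (𝓞 K), 𝔭.asIdeal.map (algebraMap (𝓞 F) (𝓞 K)) ≤ 𝔓.asIdeal →
    ¬ 𝔭.asIdeal.map (algebraMap (𝓞 F) (𝓞 K)) ≤ 𝔓.asIdeal ^ 2 ∧
      ∀ y : 𝓞 K, ∃ x : 𝓞 F, y - algebraMap (𝓞 F) (𝓞 K) x ∈ 𝔓.asIdeal

/-- The prime `𝔭` of `F` is ramified in `K`. -/
def Ramified (𝔭 : HeightOneSpectrum (𝓞 F)) : Prop :=
  ∃ 𝔓 : HeightOneSpectrum (𝓞 K), 𝔭.asIdeal.map (algebraMap (𝓞 F) (𝓞 K)) ≤ 𝔓.asIdeal ^ 2

/-- The conditions on the Galois extension `K / F`: the degree is a power of two, the primes over `2`, the
primes in `S` and the real places (for a Galois extension: every embedding of `F` in `ℝ` extends to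
`K`) split completely, and every ramified prime is in `T` or `f` is irreducible modulo it. -/
structure Allowed (S T : Finset (HeightOneSpectrum (𝓞 F))) (f : (𝓞 F)[X]) : Prop where
  degree : ∃ n : ℕ, Module.finrank F K = 2 ^ n
  two : ∀ 𝔭 : HeightOneSpectrum (𝓞 F), (2 : 𝓞 F) ∈ 𝔭.asIdeal → SplitsCompletely K 𝔭
  split : ∀ 𝔭 ∈ S, SplitsCompletely K 𝔭
  real : ∀ ρ : F →+* ℝ, ∃ τ : K →+* ℝ, ∀ x : F, τ (algebraMap F K x) = ρ x
  ramified : ∀ 𝔭 : HeightOneSpectrum (𝓞 F), Ramified K 𝔭 → 𝔭 ∈ T ∨ IrreducibleMod 𝔭 f

omit [NumberField K] in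
/-- `(x, y)` is a point of the twist `C_D : D y ^ 2 = f(x)` in the extension `E` of `K`. -/
def IsPoint (f : (𝓞 F)[X]) (D : 𝓞 F) {E : Type} [Field E] [Algebra K E] (x y : E) : Prop :=
  algebraMap K E (algebraMap F K (D : F)) * y ^ 2 = aeval x (overK K f)

/-- The properties of the twist by `D` over `K`. -/
structure OnlyInfinity (g : ℕ) (f : (𝓞 F)[X]) (D : 𝓞 F) : Prop where
  /-- no affine points over the extensions `L` of odd degree less than `2 g` (and none over `K`) -/
  points : ∀ (L : Type) [Field L] [Algebra K L], Odd (Module.finrank K L) →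
    Module.finrank K L < 2 * g → ∀ x y : L, ¬ IsPoint K f D x y
  /-- the `L`-rational places over `K` of the fields `E` over `K` with a point have `x = ∞` -/
  places : ∀ (L : Type) [Field L] [Algebra K L], Odd (Module.finrank K L) →
    Module.finrank K L < 2 * g → ∀ (E : Type) [Field E] [Algebra K E] (x y : E),
      IsPoint K f D x y → ∀ (R : ValuationSubring E) (φ : R →+* L),
        (∀ k : K, ∃ h : algebraMap K E k ∈ R, φ ⟨algebraMap K E k, h⟩ = algebraMap K L k) → x ∉ R
  /-- the ideals of the affine coordinate ring of `y ^ 2 = D ^ (2 g + 1) f(x / D)` are principal -/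
  jacobian : IsPrincipalIdealRing
    (AdjoinRoot (X ^ 2 - C (overK K (f.scaleRoots D)) : K[X][X]))

/-- The property of `f` in the theorem: all the extensions and all the twists at once. -/
def Uniform (S T : Finset (HeightOneSpectrum (𝓞 F))) (g : ℕ) (f : (𝓞 F)[X]) : Prop :=
  ∀ (K : Type) [Field K] [NumberField K] [Algebra F K] [IsGalois F K], Allowed K S T f →
    ∀ D : 𝓞 F, AllowedTwist T f D → OnlyInfinity K g f D

end defs

theorem ht_iff {F : Type} [Field F] [NumberField F] (g B : ℕ) (f : (𝓞 F)[X]) :
    Pool.Agent.N783.PF.Ht g B f ↔ f ∈ Polys F g B :=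
  ⟨fun h => ⟨h.mon, h.deg, h.tr, h.ht⟩, fun h => ⟨h.1, h.2.1, h.2.2.1, h.2.2.2⟩⟩

theorem mem (F : Type) [Field F] [NumberField F] (g B : ℕ) :
    (X ^ (2 * g + 1) : (𝓞 F)[X]) ∈ Polys F g B := by
  refine ⟨monic_X_pow _, natDegree_X_pow _, ?_, fun j hj σ => ?_⟩
  · rw [coeff_X_pow, if_neg (by omega)]
  · rw [coeff_X_pow, if_neg (by omega)]
    simp

open IntermediateField in
/-- No points of odd degree less than `2 g`. -/
theorem odd_ext {K L : Type} [Field K] [Field L] [Algebra K L] {g : ℕ} {P : K[X]}
    (H : ∀ u v : K[X], 0 < u.natDegree → u.natDegree ≤ 2 * g → ¬ u ∣ P - v ^ 2)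
    (ho : Odd (Module.finrank K L)) (hl : Module.finrank K L < 2 * g) (x y : L)
    (h : y ^ 2 = aeval x P) : False := by
  have hpos : 0 < Module.finrank K L := ho.pos
  haveI : FiniteDimensional K L := Module.finite_of_finrank_pos hpos
  have hx : IsIntegral K x := Algebra.IsIntegral.isIntegral x
  have hy : y ∈ K⟮x⟯ := by
    have hPx : aeval x P ∈ K⟮x⟯ := by
      have h1 : aeval x P ∈ Algebra.adjoin K {x} := by
        rw [Algebra.adjoin_singleton_eq_range_aeval]
        exact ⟨P, rfl⟩
      exact IntermediateField.algebra_adjoin_le_adjoin K {x} h1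
    have h2 : (minpoly K⟮x⟯ y).natDegree ≤ 2 := by
      have h3 : minpoly K⟮x⟯ y ∣ X ^ 2 - C (⟨aeval x P, hPx⟩ : K⟮x⟯) := by
        apply minpoly.dvd
        rw [map_sub, map_pow, aeval_X, aeval_C, h]
        exact sub_self _
      have h4 := natDegree_le_of_dvd h3 (X_pow_sub_C_ne_zero two_pos _)
      rwa [natDegree_X_pow_sub_C] at h4
    have h5 : (minpoly K⟮x⟯ y).natDegree ∣ Module.finrank K L := by
      refine (minpoly.degree_dvd (Algebra.IsIntegral.isIntegral y)).trans ?_
      exact Dvd.intro_left _ (Module.finrank_mul_finrank K K⟮x⟯ L)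
    have h6 : Odd (minpoly K⟮x⟯ y).natDegree := ho.of_dvd_nat h5
    have h7 : (minpoly K⟮x⟯ y).natDegree = 1 := by
      obtain ⟨m, hm⟩ := h6
      omega
    obtain ⟨z, hz⟩ := (minpoly.natDegree_eq_one_iff).1 h7
    rw [← hz]
    exact z.2
  have hy' : y ∈ Algebra.adjoin K {x} := by
    rw [← IntermediateField.adjoin_simple_toSubalgebra_of_isAlgebraic hx.isAlgebraic]
    exact hy
  rw [Algebra.adjoin_singleton_eq_range_aeval] at hy'
  obtain ⟨v, hv⟩ := hy'
  have hv' : aeval x v = y := hv
  refine H (minpoly K x) v (minpoly.natDegree_pos hx) ((minpoly.natDegree_le x).trans hl.le) ?_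
  apply minpoly.dvd
  rw [map_sub, map_pow, hv', h, sub_self]

theorem overK_scale {F K : Type} [Field F] [NumberField F] [Field K] [Algebra F K] {f : (𝓞 F)[X]}
    (hm : f.Monic) (D : 𝓞 F) :
    overK K (f.scaleRoots D) = (overK K f).scaleRoots (algebraMap F K (D : F)) := by
  have h1 : (f.map (algebraMap (𝓞 F) F)).Monic := hm.map _
  rw [overK, overK, map_scaleRoots, map_scaleRoots]
  · rw [h1.leadingCoeff, map_one]
    exact one_ne_zero
  · rw [hm.leadingCoeff, map_one]
    exact one_ne_zero

/-- From the twist to the scaled polynomial. -/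
theorem to_scale {F K E : Type} [Field F] [NumberField F] [Field K] [NumberField K] [Algebra F K]
    [Field E] [Algebra K E] {g : ℕ} {f : (𝓞 F)[X]} (hm : f.Monic) (hd : f.natDegree = 2 * g + 1)
    (D : 𝓞 F) {x y : E} (h : IsPoint K f D x y) :
    (algebraMap K E (algebraMap F K (D : F)) ^ (g + 1) * y) ^ 2 =
      aeval (algebraMap K E (algebraMap F K (D : F)) * x) (overK K (f.scaleRoots D)) := by
  have hPd : (overK K f).natDegree = 2 * g + 1 := by
    rw [overK, (hm.map _).natDegree_map, hm.natDegree_map, hd]
  rw [overK_scale hm, aeval_def, scaleRoots_eval₂_mul, ← aeval_def, hPd]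
  have h' : algebraMap K E (algebraMap F K (D : F)) * y ^ 2 = aeval x (overK K f) := h
  rw [← h']
  ring

/-- For every number field `F`, every `g ≥ 1`, every finite set `T` of primes of `F` and every finite
extension `K₀` of `F` there are a finite set `S` of primes of `F`, not over `2`, not in `T` and completely split in
`K₀`, and `c > 0` such that for all large `B` at least `c` times the number of all monic polynomials `f` of
degree `2 g + 1` over the ring of integers without term of degree `2 g` and of height at most `B` are irreducible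
over `F`, minimal, and have the property: for EVERY finite Galois extension `K` of `F` of 2-power degree in
which the primes over `2`, the primes in `S` and the real places split completely and every ramified prime
is in `T` or is a prime modulo which `f` is irreducible, and for EVERY nonzero `D` in the ring of integers which
is `1` modulo `4`, a local square at the primes over `2`, positive at the real places, and whose
prime divisors are in `T` or primes modulo which `f` is irreducible: `D y ^ 2 = f(x)` has no solutions in the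
extensions of `K` of odd degree less than `2 g`, the places with values in these extensions of all fields over
`K` with a solution have `x = ∞`, and the Jacobian of the twist has no nonzero points over `K`. -/
theorem result (F : Type) [Field F] [NumberField F] (g : ℕ) (hg : 1 ≤ g)
    (T : Finset (HeightOneSpectrum (𝓞 F))) (K₀ : Type) [Field K₀] [NumberField K₀] [Algebra F K₀] :
    ∃ S : Finset (HeightOneSpectrum (𝓞 F)),
      (∀ 𝔭 ∈ S, (2 : 𝓞 F) ∉ 𝔭.asIdeal ∧ 𝔭 ∉ T ∧ SplitsCompletely K₀ 𝔭) ∧
      ∃ c : ℝ, 0 < c ∧ ∀ᶠ B : ℕ in atTop,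
        (Polys F g B).Finite ∧ 0 < (Polys F g B).ncard ∧
        c * ((Polys F g B).ncard : ℝ) ≤
          (({f ∈ Polys F g B | Irreducible (f.map (algebraMap (𝓞 F) F)) ∧ IsMinimal g f ∧
            Uniform S T g f}).ncard : ℝ) := by
  obtain ⟨S, hS, c, hc, B₀, h⟩ := Run7.h23.Gd.mainD g F hg T K₀
  refine ⟨S, fun v hv => ?_, c, hc, ?_⟩
  · obtain ⟨h1, h2, h3⟩ := hS v hv
    exact ⟨h1, h2, Run7.h23.Gn.spI_of_sp h3⟩
  filter_upwards [eventually_ge_atTop B₀] with B hB
  obtain ⟨hfin, hle⟩ := h B hB
  have hset : {f : (𝓞 F)[X] | Pool.Agent.N783.PF.Ht g B f} = Polys F g B := by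
    ext f
    exact ht_iff g B f
  rw [hset] at hfin hle
  refine ⟨hfin, (Set.ncard_pos hfin).2 ⟨_, mem F g B⟩, hle.trans ?_⟩
  have h3 : {f : (𝓞 F)[X] | Pool.Agent.N783.PF.Ht g B f ∧
      Irreducible (Pool.Agent.N783.PF.fF f) ∧ Pool.Agent.N783.PF.Min g f ∧
      Run7.h23.Gd.GoodPD S T f ∧ ∀ v : HeightOneSpectrum (𝓞 F), (2 : 𝓞 F) ∈ v.asIdeal →
        Run7.h23.Lo.RegAt v g f} ⊆
      {f ∈ Polys F g B | Irreducible (f.map (algebraMap (𝓞 F) F)) ∧ IsMinimal g f ∧
        Uniform S T g f} := by
    rintro f ⟨hf, hi, hm, hg', hR⟩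
    refine ⟨(ht_iff g B f).1 hf, hi, hm, ?_⟩
    intro K _ _ _ _ hK D hD
    obtain ⟨n, hn⟩ := hK.degree
    obtain ⟨h4, h5⟩ := hg' D hD.ne_zero hD.inert hD.two hD.real K n hn
      (fun v hv => Run7.h23.Gn.sp_of_spI (hK.two v hv))
      (fun v hv => Run7.h23.Gn.sp_of_spI (hK.split v hv)) hK.real
      (fun v hv => hK.ramified v (by
        by_contra hc
        exact hv (Run7.h23.Gn.un_of_not hc)))
    have hmD : (f.scaleRoots D).Monic := (monic_scaleRoots_iff D).2 hf.mon
    have hdD : (f.scaleRoots D).natDegree = 2 * g + 1 := by rw [natDegree_scaleRoots, hf.deg]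
    have hRD : ∀ v : HeightOneSpectrum (𝓞 F), (2 : 𝓞 F) ∈ v.asIdeal →
        Run7.h23.Lo.RegAt v g (f.scaleRoots D) := by
      intro v hv
      refine Run7.h23.Gn.reg_scale (hR v hv) ?_
      obtain ⟨a, ha⟩ := hD.four
      rw [ha]
      refine Ideal.mul_mem_right _ _ ?_
      have e : (4 : 𝓞 F) = 2 ^ 2 := by norm_num
      rw [e]
      exact Ideal.pow_mem_pow hv 2
    have h6 := Pool.Agent.N783.PF.jac (f := (f.scaleRoots D).map (algebraMap (𝓞 F) (𝓞 K)))
      (hmD.map _) (by rw [hmD.natDegree_map, hdD]; exact odd_two_mul_add_one g) h4 h5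
    rw [Run7.h23.Gn.fF_map] at h6 h4
    have hP : ((f.scaleRoots D).map (algebraMap (𝓞 F) (𝓞 K))).map (algebraMap (𝓞 K) K) =
        overK K (f.scaleRoots D) := Run7.h23.Gn.fF_map (f.scaleRoots D)
    have h7 := Run7.h23.Gn.cls_zero (K := K) hmD hdD hRD
      (fun v hv w hw => (hK.two v hv w hw).1) hP h4 h6.1
    have hPm : (overK K (f.scaleRoots D)).Monic := by rw [← hP]; exact (hmD.map _).map _
    have hPd : (overK K (f.scaleRoots D)).natDegree = 2 * g + 1 := by
      rw [← hP, (hmD.map _).natDegree_map, hmD.natDegree_map, hdD]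
    have hG := Run7.h23.Gn.good_of hPm h4 (by rw [hPd]; exact odd_two_mul_add_one g)
    haveI := Pool.Agent.Y160.SE.hyps.ring 2 K (-1) _ hG
    have hsq : ∀ u v : K[X], 0 < u.natDegree → u.natDegree ≤ 2 * g →
        ¬ u ∣ overK K (f.scaleRoots D) - v ^ 2 :=
      fun u v h0 h1 => Run7.h23.Lo.not_sq hG hPd h7 u v h0 h1
    have hpts : ∀ (L : Type) [Field L] [Algebra K L], Odd (Module.finrank K L) →
        Module.finrank K L < 2 * g → ∀ x y : L, ¬ IsPoint K f D x y := by
      intro L _ _ ho hl x y hxy
      exact odd_ext hsq ho hl _ _ (to_scale hf.mon hf.deg D hxy)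
    refine ⟨hpts, ?_, ⟨fun I => ?_⟩⟩
    · intro L _ _ ho hl E _ _ x y hxy R φ hφ hxR
      have hDR : ∀ k : K, algebraMap K E k ∈ R := fun k => (hφ k).1
      let ψ : K →+* R := (algebraMap K E).codRestrict R.toSubring hDR
      have hψ : ∀ k : K, φ (ψ k) = algebraMap K L k := fun k => by
        obtain ⟨h8, h9⟩ := hφ k
        exact h9
      have hψE : ∀ k : K, ((ψ k : R) : E) = algebraMap K E k := fun k => rfl
      have hD0 : algebraMap F K (D : F) ≠ 0 := by
        rw [Ne, map_eq_zero]
        exact_mod_cast hD.ne_zero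
      -- `y` is in the valuation ring
      have hy2 : y ^ 2 ∈ R := by
        have h8 : y ^ 2 = ((ψ (algebraMap F K (D : F))⁻¹ * eval₂ ψ ⟨x, hxR⟩ (overK K f) : R) : E) := by
          have h9 : ((eval₂ ψ ⟨x, hxR⟩ (overK K f) : R) : E) = aeval x (overK K f) := by
            have h10 := hom_eval₂ (overK K f) ψ R.subtype ⟨x, hxR⟩
            rw [aeval_def]
            exact h10
          have h11 : algebraMap K E (algebraMap F K (D : F)) * y ^ 2 = aeval x (overK K f) := hxy
          push_cast
          rw [h9, hψE, ← h11, map_inv₀, inv_mul_cancel_left₀]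
          rw [Ne, map_eq_zero]
          exact hD0
        rw [h8]
        exact Subtype.mem _
      have hyR : y ∈ R := by
        rcases R.mem_or_inv_mem y with h8 | h8
        · exact h8
        · by_cases hy0 : y = 0
          · rw [hy0]
            exact R.zero_mem
          · have h9 : y = y ^ 2 * y⁻¹ := by field_simp
            rw [h9]
            exact R.mul_mem _ _ hy2 h8
      refine hpts L ho hl (φ ⟨x, hxR⟩) (φ ⟨y, hyR⟩) ?_
      have h12 : ψ (algebraMap F K (D : F)) * (⟨y, hyR⟩ : R) ^ 2 =
          eval₂ ψ ⟨x, hxR⟩ (overK K f) := by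
        apply Subtype.ext
        have h10 := hom_eval₂ (overK K f) ψ R.subtype ⟨x, hxR⟩
        have h11 : algebraMap K E (algebraMap F K (D : F)) * y ^ 2 = aeval x (overK K f) := hxy
        rw [aeval_def] at h11
        exact h11.trans h10.symm
      have h13 := congrArg φ h12
      rw [map_mul, map_pow, hψ, hom_eval₂] at h13
      have e : φ.comp ψ = algebraMap K L := RingHom.ext hψ
      rw [e] at h13
      show algebraMap K L (algebraMap F K (D : F)) * φ ⟨y, hyR⟩ ^ 2 =
        aeval (φ ⟨x, hxR⟩) (overK K f)
      rw [aeval_def]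
      exact h13
    · by_cases hI : I = ⊥
      · rw [hI]; infer_instance
      · obtain ⟨z, hz⟩ := Run7.h23.Lo.principal_of_eqv (h7 I hI)
        exact ⟨z, by rw [Ideal.submodule_span_eq]; exact hz⟩
  have h4 := Set.ncard_le_ncard h3 (hfin.subset fun f hf => hf.1)
  exact_mod_cast h4

end Pool.Agent.Results.MP_10e784_ag.AllTwistsManyFields
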