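import Mathlib
import Pool.Agent.Run7.h69.PA7

/-!
# The number of rational points of polynomial height on the curves `f(t) y² = φ(x) (φ(x) - a) (φ(x) - b)`

Let `a`, `b` be distinct nonzero integers, `φ` a nonconstant polynomial with rational coefficients
and `f` any polynomial with integer coefficients. For an integer `t` with `f(t) ≠ 0` let `C_t` be
the curve `f(t) y² = φ(x) (φ(x) - a) (φ(x) - b)`, the quadratic twist by `f(t)` of a hyperelliptic
curve whose genus grows with the degree of `φ` (it is `(3 n - 1) / 2` or `(3 n - 2) / 2`, `n` the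
degree of `φ`, if the polynomial on the right has no multiple zeros; every genus `1, 2, 4, 5, …`
that is not divisible by three occurs). The uniformity conjecture says that the number of the
rational points of `C_t` is bounded by a number which depends only on the genus if this is at least
two.

Theorem. For all `k`, `A` and all `δ > 0`, `ε > 0` the average of the `k`-th power of the number of
the rational points of `C_t` whose abscissa has numerator and denominator at most `H ^ A` is bounded
over the integers `t` of an interval `(x, x + H]` with `H ≥ |x| ^ ε`, uniformly in `x` and `H`, where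
only the `t` are considered for which the squarefree part of `f(t)` is at least `H ^ δ` in absolute
value (without a condition on the squarefree part of `f(t)` this would be false, for the genus one and
constant `f`).

The proof combines the bounds for all moments of `2 ^ rank` in the families of the quadratic twists of
`y² = x (x - a) (x - b)` with the parallelogram law for the naive height, which is uniform over all
quadratic twists if the height of the point `(X, Y)` of the twist by `d` is defined by `X / d`.
-/

namespace Pool.Agent.Results.MP_10e784_ag.PointsOfPolynomialHeight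

open Finset Polynomial

/-- the rational points of the curve `d y ^ 2 = φ(x) (φ(x) - a) (φ(x) - b)` whose abscissa has
numerator and denominator of absolute value at most `B` -/
def points (φ : ℚ[X]) (a b d : ℤ) (B : ℝ) : Set (ℚ × ℚ) :=
  {p | (d : ℚ) * p.2 ^ 2 = φ.eval p.1 * (φ.eval p.1 - a) * (φ.eval p.1 - b) ∧
    |(p.1.num : ℝ)| ≤ B ∧ (p.1.den : ℝ) ≤ B}

open Classical in
/-- All moments of the number of the rational points of height at most `H ^ A` are bounded on average
for the curves `f(t) y ^ 2 = φ(x) (φ(x) - a) (φ(x) - b)`, `x < t ≤ x + H`, for which the squarefree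
part of `f(t)` is at least `H ^ δ`. -/
theorem result (a b : ℤ) (ha : a ≠ 0) (hb : b ≠ 0) (hab : a ≠ b) (φ : ℚ[X])
    (hφ : 0 < φ.natDegree) :
    (∀ d : ℤ, d ≠ 0 → ∀ B : ℝ, (points φ a b d B).Finite) ∧
    ∀ (f : ℤ[X]) (k : ℕ) (A δ ε : ℝ), 0 < δ → 0 < ε →
      ∃ C : ℝ, ∀ (x : ℤ) (H : ℕ), 1 ≤ H → |(x : ℝ)| ^ ε ≤ H →
        ∑ t ∈ (Ioc x (x + H)).filter (fun t => f.eval t ≠ 0 ∧
            ∀ d s : ℤ, f.eval t = d * s ^ 2 → (H : ℝ) ^ δ ≤ |(d : ℝ)|),
          ((points φ a b (f.eval t) ((H : ℝ) ^ A)).ncard : ℝ) ^ k ≤ C * H := by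
  constructor
  · intro d hd B
    obtain ⟨M, hM⟩ := Run7.h69.PA.pts_trivial φ a b B
    by_contra hinf
    obtain ⟨S, hS, hcard⟩ := Set.Infinite.exists_subset_card_eq hinf (M + 1)
    have h1 := hM d hd S fun p hp => hS hp
    omega
  · intro f k A δ ε hδ hε
    set M : ℕ := ⌈1 / ε⌉₊ with hM
    obtain ⟨C, hC⟩ := Run7.h69.PA.moments a b ha hb hab φ hφ f k M A δ hδ
    refine ⟨C, fun x H hH hx => ?_⟩
    have hHr : (1 : ℝ) ≤ H := by exact_mod_cast hH
    have h1 : x.natAbs ≤ H ^ M := by
      have h2 : |(x : ℝ)| ≤ (H : ℝ) ^ (M : ℝ) := by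
        calc |(x : ℝ)| = (|(x : ℝ)| ^ ε) ^ (1 / ε) := by
              rw [← Real.rpow_mul (abs_nonneg _), mul_one_div_cancel hε.ne', Real.rpow_one]
          _ ≤ (H : ℝ) ^ (1 / ε) := Real.rpow_le_rpow (by positivity) hx (by positivity)
          _ ≤ (H : ℝ) ^ (M : ℝ) := Real.rpow_le_rpow_of_exponent_le hHr (Nat.le_ceil _)
      rw [Real.rpow_natCast] at h2
      have h3 : ((x.natAbs : ℕ) : ℝ) = |(x : ℝ)| := by
        rw [Nat.cast_natAbs, Int.cast_abs]
      have h4 : ((x.natAbs : ℕ) : ℝ) ≤ ((H ^ M : ℕ) : ℝ) := by
        rw [h3]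
        push_cast
        exact h2
      exact_mod_cast h4
    exact hC x H hH h1

end Pool.Agent.Results.MP_10e784_ag.PointsOfPolynomialHeight
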