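import Pool.Agent.Run7.h983.W2

set_option autoImplicit false

/-!
# Uniformity for sequences of rational points on varying curves

`X_s`, `s` in the affine line over a field `k` of characteristic zero, is a family of curves (or of
varieties) in `P^n`, given by forms whose coefficients are polynomials in `s`.  We consider sequences
of points `x(m) ∈ X_m(k)`, `m = 0, 1, 2, …`, one on each of the curves `X_0, X_1, X_2, …`, with
homogeneous coordinates which are P-recursive in `m` (they satisfy nontrivial linear recurrences with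
`t + 1` terms and polynomial coefficients, for example all sums and products of polynomials,
exponentials and factorials).

(1) If the generic member of the family contains no nonconstant rational curves (for example if it is
a curve of genus `g ≥ 1`), then the points `x(m)` come from at most `B` sections `c_i(s) ∈ X_s(k(s))`,
that is, from `k(s)`-rational points of the generic member: there is `T` such that on each class
modulo `T` one has `x(m) = c_i(m)` for one `i` and all large `m`.  The number `B` depends only on `n`,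
on a bound `d` for the degrees of the forms in the coordinates, and on `t`; it does not depend on the
field `k`, on the family, on the degrees of the coefficients in `s` or on the sequence.

(2) More generally the points outside of the hypersurfaces `G_m = 0` come from at most `B` sections if
all nonconstant rational curves on the generic member are contained in `G = 0`.

(3) For the hyperelliptic families `y ^ 2 = f(s, x)`, `f` squarefree as a polynomial in `x` over
`k(s)`, of degree between `5` and `D` in `x` (for `D = 6`: all families of curves of genus two): if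
`x(m)`, `y(m)` are P-recursive sequences in `k` with `y(m) ^ 2 = f(m, x(m))` for all large `m`, then
there are at most `B = B(D, t)` pairs of rational functions `(ξ, η)` with `η(s) ^ 2 = f(s, ξ(s))` such
that on each class modulo some `T` one has `(x(m), y(m)) = (ξ(m), η(m))` for one of them and all large
`m`.

Proof.  The difference Galois group of the recurrence gives an orbit of a matrix group on the generic
member of the family, over a finite extension `E` of `ℂ(s)`, and the uniform bound for the orbits of
matrix groups on varieties without rational curves (starting files, `uniform_all`) applies.  So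
`x(m)` is algebraic over `k(m)`, and Hilbert's irreducibility theorem on long runs of consecutive
integers, for arbitrary finitely generated fields of characteristic zero (`hp_fg`), shows that it is
given by rational functions on such runs; then by the Noetherian property everywhere.
-/

namespace Pool.Agent.Results.MP_10e784_ag.SequencesInFamilies

open Polynomial Pool.Agent.Run7.h983

/-- The sequence `s` satisfies a nontrivial linear recurrence with `t + 1` terms and polynomial
coefficients. -/
def RecOrder {k : Type} [Field k] (t : ℕ) (s : ℕ → k) : Prop :=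
  ∃ p : Fin (t + 1) → k[X], p ≠ 0 ∧
    ∀ m : ℕ, ∑ i : Fin (t + 1), (p i).eval (m : k) * s (m + i) = 0

/-- All elements are forms of degree at most `d` (with coefficients in `R`). -/
def Forms {R : Type} [CommRing R] {n : ℕ} (d : ℕ) (FF : Set (MvPolynomial (Fin (n + 1)) R)) : Prop :=
  ∀ F ∈ FF, ∃ m ≤ d, F.IsHomogeneous m

/-- The value at `v` of the form `F` with coefficients in `k[s]`, for the value `s = a` of the
parameter. -/
noncomputable def valueAt {k : Type} [Field k] {n : ℕ} (F : MvPolynomial (Fin (n + 1)) k[X]) (a : k)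
    (v : Fin (n + 1) → k) : k :=
  MvPolynomial.eval₂ (evalRingHom a) v F

/-- The polynomials `c_0(s), …, c_n(s)` satisfy the equations `F = 0`, `F ∈ FF`, of the family. -/
def IsSection {k : Type} [Field k] {n : ℕ} (FF : Set (MvPolynomial (Fin (n + 1)) k[X]))
    (c : Fin (n + 1) → k[X]) : Prop :=
  ∀ F ∈ FF, MvPolynomial.eval c F = 0

/-- The algebraic closure of `k(s)`. -/
abbrev Generic (k : Type) [Field k] : Type := AlgebraicClosure (RatFunc k)

/-- The embedding of `k[s]` in the algebraic closure of `k(s)`. -/
noncomputable def toGeneric (k : Type) [Field k] : k[X] →+* Generic k :=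
  (algebraMap (RatFunc k) (Generic k)).comp (algebraMap k[X] (RatFunc k))

/-- All rational curves `q : P^1 → P^n` over the algebraic closure of `k(s)` (given by polynomials
`q_0, …, q_n` in one variable) which lie on the generic member `F = 0`, `F ∈ FF`, of the family and
on which `G` is not identically zero are constant. -/
def RationalCurvesIn {k : Type} [Field k] {n : ℕ} (FF : Set (MvPolynomial (Fin (n + 1)) k[X]))
    (G : MvPolynomial (Fin (n + 1)) k[X]) : Prop :=
  ∀ q : Fin (n + 1) → (Generic k)[X],
    (∀ F ∈ FF, MvPolynomial.eval₂ (C.comp (toGeneric k)) q F = 0) →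
    MvPolynomial.eval₂ (C.comp (toGeneric k)) q G ≠ 0 →
    ∀ i j (a b : Generic k), (q i).eval a * (q j).eval b = (q j).eval a * (q i).eval b

/-- **Theorem.** (1) P-recursive sequences of points on the members of a family without rational
curves on the generic member come from at most `B(n, d, t)` sections.  (2) The same outside of `G = 0`.
(3) The hyperelliptic families `y ^ 2 = f(s, x)`. -/
theorem result :
    (∀ n d t : ℕ, ∃ B : ℕ, ∀ (k : Type) [Field k] [CharZero k]
      (FF : Set (MvPolynomial (Fin (n + 1)) k[X])), Forms d FF → RationalCurvesIn FF 1 →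
      ∀ x : ℕ → Fin (n + 1) → k, (∀ j, RecOrder t fun m => x m j) → (∀ m, x m ≠ 0) →
      (∃ N : ℕ, ∀ m ≥ N, ∀ F ∈ FF, valueAt F (m : k) (x m) = 0) →
      ∃ c : Fin B → Fin (n + 1) → k[X], (∀ i, IsSection FF (c i)) ∧
        ∃ T : ℕ, 1 ≤ T ∧ ∀ a : ℕ, ∃ i, c i ≠ 0 ∧ ∃ N : ℕ, ∀ m ≥ N, m % T = a % T →
          ∃ s : k, s ≠ 0 ∧ ∀ j, x m j = s * (c i j).eval (m : k)) ∧
    (∀ n d t : ℕ, ∃ B : ℕ, ∀ (k : Type) [Field k] [CharZero k]
      (FF : Set (MvPolynomial (Fin (n + 1)) k[X])), Forms d FF →
      ∀ G : MvPolynomial (Fin (n + 1)) k[X], Forms d {G} → RationalCurvesIn FF G →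
      ∀ x : ℕ → Fin (n + 1) → k, (∀ j, RecOrder t fun m => x m j) → (∀ m, x m ≠ 0) →
      (∃ N : ℕ, ∀ m ≥ N, ∀ F ∈ FF, valueAt F (m : k) (x m) = 0) →
      ∃ c : Fin B → Fin (n + 1) → k[X], (∀ i, IsSection FF (c i)) ∧
        ∃ T : ℕ, 1 ≤ T ∧ ∀ a : ℕ,
          (∃ N : ℕ, ∀ m ≥ N, m % T = a % T → valueAt G (m : k) (x m) = 0) ∨
          ∃ i, c i ≠ 0 ∧ ∃ N : ℕ, ∀ m ≥ N, m % T = a % T →
            ∃ s : k, s ≠ 0 ∧ ∀ j, x m j = s * (c i j).eval (m : k)) ∧
    (∀ D t : ℕ, ∃ B : ℕ, ∀ (k : Type) [Field k] [CharZero k] (f : k[X][X]),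
      Squarefree (f.map (algebraMap k[X] (RatFunc k))) → 5 ≤ f.natDegree → f.natDegree ≤ D →
      ∀ x y : ℕ → k, RecOrder t x → RecOrder t y →
      (∃ M : ℕ, ∀ m ≥ M, y m ^ 2 = (f.map (evalRingHom (m : k))).eval (x m)) →
      ∃ P : Finset (RatFunc k × RatFunc k), P.card ≤ B ∧
        (∀ p ∈ P, p.2 ^ 2 = (f.map (algebraMap k[X] (RatFunc k))).eval p.1) ∧
        ∃ T : ℕ, 1 ≤ T ∧ ∀ a : ℕ, ∃ p ∈ P, ∃ M : ℕ, ∀ m ≥ M, m % T = a % T →
          x m = RatFunc.eval (RingHom.id k) (m : k) p.1 ∧
          y m = RatFunc.eval (RingHom.id k) (m : k) p.2) := by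
  have main : ∀ n d t : ℕ, ∃ B : ℕ, ∀ (k : Type) [Field k] [CharZero k]
      (FF : Set (MvPolynomial (Fin (n + 1)) k[X])), Forms d FF →
      ∀ G : MvPolynomial (Fin (n + 1)) k[X], Forms d {G} → RationalCurvesIn FF G →
      ∀ x : ℕ → Fin (n + 1) → k, (∀ j, RecOrder t fun m => x m j) → (∀ m, x m ≠ 0) →
      (∃ N : ℕ, ∀ m ≥ N, ∀ F ∈ FF, valueAt F (m : k) (x m) = 0) →
      ∃ c : Fin B → Fin (n + 1) → k[X], (∀ i, IsSection FF (c i)) ∧
        ∃ T : ℕ, 1 ≤ T ∧ ∀ a : ℕ,
          (∃ N : ℕ, ∀ m ≥ N, m % T = a % T → valueAt G (m : k) (x m) = 0) ∨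
          ∃ i, c i ≠ 0 ∧ ∃ N : ℕ, ∀ m ≥ N, m % T = a % T →
            ∃ s : k, s ≠ 0 ∧ ∀ j, x m j = s * (c i j).eval (m : k) := by
    intro n d t
    obtain ⟨B, hB⟩ := fam_all n d t
    refine ⟨B, fun k _ _ FF hFF G hG hcur x hx hne hX => ?_⟩
    have hinj : Function.Injective (toGeneric k) :=
      (algebraMap (RatFunc k) (Generic k)).injective.comp (IsFractionRing.injective _ _)
    obtain ⟨c, hc, T, hT, hcl⟩ := hB k FF hFF G (hG G rfl) (Generic k) (toGeneric k) hinj
      (fun q hq hG' => hcur q hq (by
        obtain ⟨_, rfl, h⟩ := hG'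
        exact h)) x hx hX
    refine ⟨c, hc, T, hT, fun a => ?_⟩
    rcases hcl a with h | ⟨i, N, hN⟩
    · exact Or.inl h
    right
    have key : ∀ m ≥ N, m % T = a % T →
        c i ≠ 0 ∧ ∃ s : k, s ≠ 0 ∧ ∀ j, x m j = s * (c i j).eval (m : k) := by
      intro m hm hma
      obtain ⟨s, hs⟩ := hN m hm hma
      refine ⟨fun h0 => ?_, s, fun h0 => ?_, fun j => congrFun hs j⟩
      · apply hne m
        rw [hs, h0]
        funext j
        simp
      · apply hne m
        rw [hs, h0]
        funext j
        simp
    refine ⟨i, ?_, N, fun m hm hma => (key m hm hma).2⟩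
    exact (key (a + T * N) (by nlinarith) (by simp)).1
  refine ⟨fun n d t => ?_, main, fun D t => hyp_fam D t⟩
  obtain ⟨B, hB⟩ := main n d t
  refine ⟨B, fun k _ _ FF hFF hcur x hx hne hX => ?_⟩
  obtain ⟨c, hc, T, hT, hcl⟩ := hB k FF hFF 1 (by
    intro F hF
    rw [Set.mem_singleton_iff.1 hF]
    exact ⟨0, Nat.zero_le _, MvPolynomial.isHomogeneous_one _ _⟩) hcur x hx hne hX
  refine ⟨c, hc, T, hT, fun a => ?_⟩
  rcases hcl a with ⟨N, hN⟩ | h
  · exfalso
    have h1 := hN (a + T * N) (by nlinarith) (by simp)
    unfold valueAt at h1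
    rw [MvPolynomial.eval₂_one] at h1
    exact one_ne_zero h1
  · exact h

end Pool.Agent.Results.MP_10e784_ag.SequencesInFamilies
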