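import Mathlib
import Pool.Agent.Run7.h28.ST.Rep

/-!
# A uniform bound for sparse points on all curves with sparse parameters

The uniformity conjecture asks for a bound for the number of rational points of all curves of a given
genus `g ≥ 2`.  We consider algebraic families of plane curves `F (s, x, y) = 0`, `F` monic in `y`,
with any number of parameters `s_1, …, s_p`, over a number field `K`, and all those members of the
family for which the parameters are *sparse*: sums of `k` elements of a finitely generated subgroup
`Γ` of `Kˣ` (for example, of the `S`-units) with coefficients of bounded height.  The height of such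
parameters is not bounded.  We prove that on all these curves together the number of the points
`(x, y)` over `K` with sparse `x`, arbitrary `y`, and `F (s, x, Y)` near a separable polynomial at one
place, which lie on no nonconstant image of the multiplicative group (there are no such images if the
components of the curve have positive genus), is bounded by one constant.
-/

open Height NumberField IsDedekindDomain

namespace Pool.Agent.Results.MP_10e784_ag.SparseParameters

/-- The places of a number field, infinite or finite. -/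
abbrev Place (K : Type) [Field K] [NumberField K] : Type :=
  InfinitePlace K ⊕ HeightOneSpectrum (𝓞 K)

/-- The absolute value of a place, as normalised in Mathlib. -/
noncomputable def absv {K : Type} [Field K] [NumberField K] : Place K → AbsoluteValue K ℝ
  | Sum.inl w => w.1
  | Sum.inr v => (FinitePlace.mk v).1

/-- The polynomial `F (s, x, Y)` in `Y`. -/
noncomputable def fibre {K : Type} [Field K] {p : ℕ} (F : Polynomial (MvPolynomial (Fin (p + 1)) K))
    (s : Fin p → K) (x : K) : Polynomial K :=
  F.map (MvPolynomial.eval (Fin.snoc s x : Fin (p + 1) → K))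

/-- There are Laurent polynomials `X`, `Y` over `K`, not both constant, with `F (s, X, Y) = 0`,
`X (1) = x` and `Y (1) = y`: the point `(x, y)` lies on a nonconstant image of the multiplicative
group in the curve `F (s, x, y) = 0`. -/
def OnTorusCurve {K : Type} [Field K] {p : ℕ} (F : Polynomial (MvPolynomial (Fin (p + 1)) K))
    (s : Fin p → K) (x y : K) : Prop :=
  ∃ X Y : LaurentPolynomial K, LaurentPolynomial.eval₂ (RingHom.id K) 1 X = x ∧
    LaurentPolynomial.eval₂ (RingHom.id K) 1 Y = y ∧
    (F.map (MvPolynomial.eval₂Hom LaurentPolynomial.C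
      (Fin.snoc (fun j => LaurentPolynomial.C (s j)) X :
        Fin (p + 1) → LaurentPolynomial K))).eval Y = 0 ∧
    ¬ ((∃ a, X = LaurentPolynomial.C a) ∧ ∃ b, Y = LaurentPolynomial.C b)

section

variable {K : Type} [Field K] [NumberField K]

/-- `x` is a sum of `k` elements of `Γ` with coefficients in `K` of height at most `M`. -/
def IsSparse (Γ : Subgroup Kˣ) (k : ℕ) (M : ℝ) (x : K) : Prop :=
  ∃ (a : Fin k → K) (u : Fin k → Kˣ), (∀ r, mulHeight₁ (a r) ≤ M) ∧ (∀ r, u r ∈ Γ) ∧
    x = ∑ r, a r * (u r : K)

/-- After scaling, the polynomial `F` is `v`-adically close to a separable polynomial `E` of degree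
`q` over `K` with coefficients of height at most `M`: there are `a, z ∈ Γ` of height at most `M h ^ B`
such that the coefficients of `a F (z Y) - E (Y)` of index at most `q` are at most `M h ^ (-δ)` at
`v`.  See `near_of_close` for the main example. -/
def IsNearSeparable (Γ : Subgroup Kˣ) (v : Place K) (B δ M h : ℝ) (q : ℕ) (F : Polynomial K) :
    Prop :=
  ∃ (a z : Kˣ) (E : Polynomial K), a ∈ Γ ∧ z ∈ Γ ∧ E.natDegree = q ∧ E.Separable ∧
    (∀ j, mulHeight₁ (E.coeff j) ≤ M) ∧ mulHeight₁ (a : K) ≤ M * h ^ B ∧
    mulHeight₁ (z : K) ≤ M * h ^ B ∧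
    ∀ j ≤ q, absv v ((a : K) * (z : K) ^ j * F.coeff j - E.coeff j) ≤ M * h ^ (-δ)

/-- The points `(x, y)` over `K` of the curve `F (s, x, y) = 0` with sparse `x` and `F (s, x, Y)` near
separable, which lie on no nonconstant image of the multiplicative group in the curve. -/
def points (Γ : Subgroup Kˣ) (v : Place K) (k : ℕ) (B δ M : ℝ) {p : ℕ}
    (F : Polynomial (MvPolynomial (Fin (p + 1)) K)) (s : Fin p → K) : Set (K × K) :=
  {P | (fibre F s P.1).eval P.2 = 0 ∧ IsSparse Γ k M P.1 ∧
    IsNearSeparable Γ v B δ M ((∏ j, mulHeight₁ (s j)) * mulHeight₁ P.1) F.natDegree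
      (fibre F s P.1) ∧ ¬ OnTorusCurve F s P.1 P.2}

end

lemma absv_eq {K : Type} [Field K] [NumberField K] (v : Place K) :
    absv v = Pool.Agent.W180.OP.av v := by
  cases v with
  | inl w => rfl
  | inr w => rfl

/-- The main example: `F (s, x, Y)` is near separable if `(s, x)` is `v`-adically close to a fixed
point `c` for which `F (c, Y)` is separable. -/
theorem near_of_close {K : Type} [Field K] [NumberField K] {p : ℕ}
    (F : Polynomial (MvPolynomial (Fin (p + 1)) K)) (hF : F.Monic) (c : Fin (p + 1) → K) (M : ℝ)
    (hs : (F.map (MvPolynomial.eval c)).Separable) : ∃ M' : ℝ, 1 ≤ M' ∧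
      ∀ (Γ : Subgroup Kˣ) (v : Place K) (B δ h : ℝ) (s : Fin p → K) (x : K), 0 ≤ B → 0 ≤ δ →
        1 ≤ h → (∀ j : Fin p, absv v (s j - c j.castSucc) ≤ M * h ^ (-δ)) →
        absv v (x - c (Fin.last p)) ≤ M * h ^ (-δ) →
        IsNearSeparable Γ v B δ M' h F.natDegree (fibre F s x) := by
  obtain ⟨M', hM', h1⟩ := Pool.Agent.Run7.h28.ST.near_fixed F c M (hF.natDegree_map _) hs
  refine ⟨M', hM', fun Γ v B δ h s x hB hδ hh hsc hxc => ?_⟩
  have h2 := h1 Γ v B δ h (Fin.snoc s x) hB hδ hh (fun l => by
    rw [← absv_eq]
    refine Fin.lastCases ?_ (fun j => ?_) l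
    · rw [Fin.snoc_last]
      exact hxc
    · rw [Fin.snoc_castSucc]
      exact hsc j)
  obtain ⟨a, z, E, b1, b2, b3, b4, b6, b7, b8, b9⟩ := h2
  refine ⟨a, z, E, b1, b2, b3, b4, b6, b7, b8, fun j hj => ?_⟩
  rw [absv_eq]
  exact b9 j hj

/-- Let `K` be a number field, `Γ` a finitely generated subgroup of `Kˣ`, `v` a place of `K`, `p` and
`k` natural numbers, `B`, `M` and `δ > 0` real numbers and `F (s_1, …, s_p, x, Y)` a polynomial over
`K` which is monic in `Y`.  There is a number `N` such that for all `s ∈ K ^ p` with all `s_j` sums of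
`k` elements of `Γ` with coefficients of height at most `M` (the height of `s` is arbitrary) the curve
`F (s, x, y) = 0` has at most `N` points `(x, y)` over `K` such that
* `x` is a sum of `k` elements of `Γ` with coefficients of height at most `M`,
* `F (s, x, Y)` is, after scaling by elements of `Γ`, `v`-adically at distance at most `M h ^ (-δ)`
  from a separable polynomial over `K` with coefficients of height at most `M`, where `h` is the
  product of the heights of `x` and of the `s_j`,
* there are no Laurent polynomials `X`, `Y` over `K`, not both constant, with `F (s, X, Y) = 0`,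
  `X (1) = x` and `Y (1) = y`. -/
theorem result (K : Type) [Field K] [NumberField K] (Γ : Subgroup Kˣ) (hΓ : Γ.FG) (v : Place K)
    (p k : ℕ) (B δ M : ℝ) (hδ : 0 < δ) (F : Polynomial (MvPolynomial (Fin (p + 1)) K))
    (hF : F.Monic) :
    ∃ N : ℕ, ∀ s : Fin p → K, (∀ j, IsSparse Γ k M (s j)) →
      (points Γ v k B δ M F s).Finite ∧ (points Γ v k B δ M F s).ncard ≤ N := by
  obtain ⟨N, hN⟩ := Pool.Agent.Run7.h28.ST.curveS p k B δ M hδ Γ hΓ v F hF
  refine ⟨N, fun s hs => hN s _ hs fun P hP => ?_⟩
  obtain ⟨h1, h2, h3, h4⟩ := hP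
  refine ⟨h1, h2, ?_, fun X Y hX hY hXY => ?_⟩
  · obtain ⟨a, z, E, b1, b2, b3, b4, b6, b7, b8, b9⟩ := h3
    rw [absv_eq] at b9
    exact ⟨a, z, E, b1, b2, b3, b4, b6, b7, b8, b9⟩
  · by_contra h5
    exact h4 ⟨X, Y, hX, hY, hXY, h5⟩

end Pool.Agent.Results.MP_10e784_ag.SparseParameters
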